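import Mathlib

/-!
# Finite weighted probability, product coins, the swap lemma, the local lemma

`PW w E` is the weight of the event `E`.  `cw q` is the product weight on `C → Bool` where the
coin `c` is true with weight `q c`.
-/

open Finset
open scoped Classical

namespace VU

noncomputable section

section Gen

variable {Ω : Type*} [Fintype Ω]

/-- weight of an event -/
def PW (w : Ω → ℝ) (E : Ω → Prop) : ℝ := ∑ ω, if E ω then w ω else 0

theorem PW_nonneg {w : Ω → ℝ} (hw : ∀ ω, 0 ≤ w ω) (E : Ω → Prop) : 0 ≤ PW w E := by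
  unfold PW
  apply Finset.sum_nonneg
  intro ω _
  split_ifs
  · exact hw ω
  · exact le_refl 0

theorem PW_mono {w : Ω → ℝ} (hw : ∀ ω, 0 ≤ w ω) {E F : Ω → Prop} (h : ∀ ω, E ω → F ω) :
    PW w E ≤ PW w F := by
  unfold PW
  apply Finset.sum_le_sum
  intro ω _
  by_cases hE : E ω
  · simp [hE, h ω hE]
  · by_cases hF : F ω
    · simp [hE, hF, hw ω]
    · simp [hE, hF]

theorem PW_congr {w : Ω → ℝ} {E F : Ω → Prop} (h : ∀ ω, E ω ↔ F ω) : PW w E = PW w F := by
  unfold PW
  apply Finset.sum_congr rfl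
  intro ω _
  simp [h ω]

theorem PW_true (w : Ω → ℝ) : PW w (fun _ => True) = ∑ ω, w ω := by
  simp [PW]

theorem PW_add_not (w : Ω → ℝ) (E F : Ω → Prop) :
    PW w (fun ω => F ω ∧ E ω) + PW w (fun ω => F ω ∧ ¬ E ω) = PW w F := by
  unfold PW
  rw [← Finset.sum_add_distrib]
  apply Finset.sum_congr rfl
  intro ω _
  by_cases hE : E ω <;> by_cases hF : F ω <;> simp [hE, hF]

/-- union bound -/
theorem PW_union_le {ι : Type*} {w : Ω → ℝ} (hw : ∀ ω, 0 ≤ w ω) (s : Finset ι)
    (A : ι → Ω → Prop) (F : Ω → Prop) :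
    PW w (fun ω => (∃ i ∈ s, A i ω) ∧ F ω) ≤ ∑ i ∈ s, PW w (fun ω => A i ω ∧ F ω) := by
  unfold PW
  rw [Finset.sum_comm]
  apply Finset.sum_le_sum
  intro ω _
  by_cases h : (∃ i ∈ s, A i ω) ∧ F ω
  · obtain ⟨⟨i, hi, hA⟩, hF⟩ := h
    rw [if_pos ⟨⟨i, hi, hA⟩, hF⟩]
    refine le_trans (le_of_eq ?_) (Finset.single_le_sum (a := i) ?_ hi)
    · exact (if_pos ⟨hA, hF⟩).symm
    · intro j _
      split_ifs
      · exact hw ω
      · exact le_refl 0
  · rw [if_neg h]
    apply Finset.sum_nonneg
    intro j _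
    split_ifs
    · exact hw ω
    · exact le_refl 0

/-- no event of the family happens -/
def NoA {ι : Type*} (A : ι → Ω → Prop) (S : Finset ι) (ω : Ω) : Prop := ∀ j ∈ S, ¬ A j ω

/-- the symmetric local lemma, induction step -/
theorem lll_aux {ι : Type*} {w : Ω → ℝ} (hw : ∀ ω, 0 ≤ w ω) (hw1 : ∑ ω, w ω = 1)
    (A : ι → Ω → Prop) (Γ : ι → Finset ι) (d : ℕ) (p : ℝ) (hp : 0 ≤ p)
    (hpd : 4 * p * (d + 1) ≤ 1) (hd : ∀ i, (Γ i).card ≤ d)
    (hA : ∀ i, PW w (A i) ≤ p)
    (hind : ∀ (i : ι) (S : Finset ι), i ∉ S → Disjoint S (Γ i) →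
      PW w (fun ω => A i ω ∧ NoA A S ω) = PW w (A i) * PW w (NoA A S)) :
    ∀ (n : ℕ) (S : Finset ι), S.card = n →
      0 < PW w (NoA A S) ∧ ∀ i, i ∉ S →
        PW w (fun ω => A i ω ∧ NoA A S ω) ≤ 2 * p * PW w (NoA A S) := by
  have hd0 : (0 : ℝ) ≤ d := Nat.cast_nonneg d
  have hp4 : 4 * p ≤ 1 := by nlinarith
  have hpd2 : 2 * p * d ≤ 1 / 2 := by nlinarith
  intro n
  induction n using Nat.strong_induction_on with
  | _ n ih =>
    intro S hS
    have hpos : 0 < PW w (NoA A S) := by
      rcases S.eq_empty_or_nonempty with h0 | ⟨j, hj⟩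
      · have : PW w (NoA A S) = 1 := by
          rw [← hw1, ← PW_true w]
          apply PW_congr
          intro ω
          simp [NoA, h0]
        rw [this]
        exact one_pos
      · have hlt : (S.erase j).card < n := by
          rw [← hS]
          exact Finset.card_erase_lt_of_mem hj
        obtain ⟨h1, h2⟩ := ih _ hlt (S.erase j) rfl
        have h3 := h2 j (Finset.notMem_erase j S)
        have h4 : PW w (NoA A S) + PW w (fun ω => A j ω ∧ NoA A (S.erase j) ω)
            = PW w (NoA A (S.erase j)) := by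
          rw [← PW_add_not w (A j) (NoA A (S.erase j)), add_comm]
          congr 1
          · apply PW_congr
            intro ω
            constructor
            · rintro ⟨a, b⟩
              exact ⟨b, a⟩
            · rintro ⟨a, b⟩
              exact ⟨b, a⟩
          · apply PW_congr
            intro ω
            constructor
            · intro h
              exact ⟨fun i hi => h i (Finset.mem_of_mem_erase hi), h j hj⟩
            · rintro ⟨h, h'⟩ i hi
              by_cases hij : i = j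
              · subst hij
                exact h'
              · exact h i (Finset.mem_erase.2 ⟨hij, hi⟩)
        nlinarith
    refine ⟨hpos, ?_⟩
    intro i hi
    set S1 := S.filter (fun j => j ∈ Γ i) with hS1
    set S2 := S.filter (fun j => j ∉ Γ i) with hS2
    have hdis : Disjoint S2 (Γ i) := by
      rw [Finset.disjoint_left]
      intro j hj
      exact (Finset.mem_filter.1 hj).2
    have hi2 : i ∉ S2 := fun h => hi (Finset.mem_filter.1 h).1
    have e1 : PW w (fun ω => A i ω ∧ NoA A S ω) ≤ PW w (fun ω => A i ω ∧ NoA A S2 ω) := by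
      apply PW_mono hw
      rintro ω ⟨h1, h2⟩
      exact ⟨h1, fun j hj => h2 j (Finset.mem_filter.1 hj).1⟩
    have e2 := hind i S2 hi2 hdis
    have hn2 := PW_nonneg hw (NoA A S2)
    have e3 : PW w (fun ω => A i ω ∧ NoA A S ω) ≤ p * PW w (NoA A S2) := by
      rw [e2] at e1
      exact e1.trans (mul_le_mul_of_nonneg_right (hA i) hn2)
    rcases S1.eq_empty_or_nonempty with h0 | hne
    · have hSS : S2 = S := by
        apply Finset.filter_true_of_mem
        intro j hj hj'
        have : j ∈ S1 := Finset.mem_filter.2 ⟨hj, hj'⟩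
        rw [h0] at this
        exact absurd this (Finset.notMem_empty j)
      rw [hSS] at e3
      nlinarith
    · have hlt : S2.card < n := by
        rw [← hS]
        apply Finset.card_lt_card
        refine ⟨Finset.filter_subset _ _, ?_⟩
        intro hsub
        obtain ⟨j, hj⟩ := hne
        have h1 := hsub (Finset.mem_filter.1 hj).1
        exact (Finset.mem_filter.1 h1).2 (Finset.mem_filter.1 hj).2
      obtain ⟨h1, h2⟩ := ih _ hlt S2 rfl
      have hu := PW_union_le hw S1 A (NoA A S2)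
      have hsum : ∑ j ∈ S1, PW w (fun ω => A j ω ∧ NoA A S2 ω)
          ≤ d * (2 * p * PW w (NoA A S2)) := by
        calc ∑ j ∈ S1, PW w (fun ω => A j ω ∧ NoA A S2 ω)
            ≤ ∑ _j ∈ S1, 2 * p * PW w (NoA A S2) := by
              apply Finset.sum_le_sum
              intro j hj
              apply h2 j
              intro hj2
              exact (Finset.mem_filter.1 hj2).2 (Finset.mem_filter.1 hj).2
          _ = (S1.card : ℝ) * (2 * p * PW w (NoA A S2)) := by
              rw [Finset.sum_const, nsmul_eq_mul]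
          _ ≤ d * (2 * p * PW w (NoA A S2)) := by
              apply mul_le_mul_of_nonneg_right
              · have : S1.card ≤ (Γ i).card := by
                  apply Finset.card_le_card
                  intro j hj
                  exact (Finset.mem_filter.1 hj).2
                exact_mod_cast this.trans (hd i)
              · positivity
      have hsplit : PW w (NoA A S2) ≤ PW w (NoA A S)
          + PW w (fun ω => (∃ j ∈ S1, A j ω) ∧ NoA A S2 ω) := by
        rw [← PW_add_not w (fun ω => ∃ j ∈ S1, A j ω) (NoA A S2), add_comm]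
        apply add_le_add
        · apply PW_mono hw
          rintro ω ⟨ha, hb⟩ j hj
          by_cases hjG : j ∈ Γ i
          · intro hAj
            exact hb ⟨j, Finset.mem_filter.2 ⟨hj, hjG⟩, hAj⟩
          · exact ha j (Finset.mem_filter.2 ⟨hj, hjG⟩)
        · apply PW_mono hw
          rintro ω ⟨a, b⟩
          exact ⟨b, a⟩
      have hh : PW w (NoA A S2) ≤ 2 * PW w (NoA A S) := by nlinarith
      nlinarith

/-- the symmetric local lemma -/
theorem lll {ι : Type*} [Fintype ι] {w : Ω → ℝ} (hw : ∀ ω, 0 ≤ w ω) (hw1 : ∑ ω, w ω = 1)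
    (A : ι → Ω → Prop) (Γ : ι → Finset ι) (d : ℕ) (p : ℝ) (hp : 0 ≤ p)
    (hpd : 4 * p * (d + 1) ≤ 1) (hd : ∀ i, (Γ i).card ≤ d)
    (hA : ∀ i, PW w (A i) ≤ p)
    (hind : ∀ (i : ι) (S : Finset ι), i ∉ S → Disjoint S (Γ i) →
      PW w (fun ω => A i ω ∧ NoA A S ω) = PW w (A i) * PW w (NoA A S)) :
    ∃ ω, 0 < w ω ∧ ∀ i, ¬ A i ω := by
  obtain ⟨h, -⟩ := lll_aux hw hw1 A Γ d p hp hpd hd hA hind _ Finset.univ rfl
  by_contra hcon
  push Not at hcon
  have : PW w (NoA A Finset.univ) ≤ 0 := by
    unfold PW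
    apply Finset.sum_nonpos
    intro ω _
    split_ifs with h1
    · by_contra h2
      push Not at h2
      obtain ⟨i, hi⟩ := hcon ω h2
      exact h1 i (Finset.mem_univ i) hi
    · exact le_refl 0
  linarith

end Gen

section Coins

set_option linter.unusedSectionVars false

variable {C : Type*} [Fintype C]

/-- product weight -/
def cw (q : C → ℝ) (ξ : C → Bool) : ℝ := ∏ c, if ξ c then q c else 1 - q c

theorem cw_nonneg {q : C → ℝ} (h0 : ∀ c, 0 ≤ q c) (h1 : ∀ c, q c ≤ 1) (ξ : C → Bool) :
    0 ≤ cw q ξ := by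
  unfold cw
  apply Finset.prod_nonneg
  intro c _
  split_ifs
  · exact h0 c
  · linarith [h1 c]

theorem cw_sum (q : C → ℝ) : ∑ ξ, cw q ξ = 1 := by
  unfold cw
  rw [← Fintype.prod_sum (fun c (b : Bool) => if b = true then q c else 1 - q c)]
  apply Finset.prod_eq_one
  intro c _
  simp

/-- swap of two configurations outside a set depending on the first one -/
def sw (S : (C → Bool) → Set C) (x : (C → Bool) × (C → Bool)) : (C → Bool) × (C → Bool) :=
  (fun c => if c ∈ S x.1 then x.1 c else x.2 c, fun c => if c ∈ S x.1 then x.2 c else x.1 c)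

/-- a stopping set: determined by its own coins -/
def StopSet (S : (C → Bool) → Set C) : Prop :=
  ∀ ξ η : C → Bool, (∀ c ∈ S ξ, η c = ξ c) → S η = S ξ

theorem sw_fst_S {S : (C → Bool) → Set C} (hS : StopSet S) (x : (C → Bool) × (C → Bool)) :
    S (sw S x).1 = S x.1 := by
  apply hS
  intro c hc
  simp [sw, hc]

theorem sw_sw {S : (C → Bool) → Set C} (hS : StopSet S) (x : (C → Bool) × (C → Bool)) :
    sw S (sw S x) = x := by
  have h := sw_fst_S hS x
  apply Prod.ext
  · funext c
    show (if c ∈ S (sw S x).1 then (sw S x).1 c else (sw S x).2 c) = x.1 c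
    rw [h]
    by_cases hc : c ∈ S x.1 <;> simp [sw, hc]
  · funext c
    show (if c ∈ S (sw S x).1 then (sw S x).2 c else (sw S x).1 c) = x.2 c
    rw [h]
    by_cases hc : c ∈ S x.1 <;> simp [sw, hc]

theorem sw_weight (q : C → ℝ) (S : (C → Bool) → Set C) (x : (C → Bool) × (C → Bool)) :
    cw q (sw S x).1 * cw q (sw S x).2 = cw q x.1 * cw q x.2 := by
  unfold cw
  rw [← Finset.prod_mul_distrib, ← Finset.prod_mul_distrib]
  apply Finset.prod_congr rfl
  intro c _
  by_cases hc : c ∈ S x.1
  · simp [sw, hc]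
  · simp only [sw, hc, if_false]
    exact mul_comm _ _

/-- swapping does not change the weight of an event of two independent configurations -/
theorem sw_sum (q : C → ℝ) {S : (C → Bool) → Set C} (hS : StopSet S)
    (G : (C → Bool) × (C → Bool) → ℝ) :
    ∑ x, cw q x.1 * cw q x.2 * G (sw S x) = ∑ x, cw q x.1 * cw q x.2 * G x := by
  have hinv : Function.Involutive (sw S) := fun x => sw_sw hS x
  rw [← Equiv.sum_comp hinv.toPerm (fun x => cw q x.1 * cw q x.2 * G x)]
  apply Finset.sum_congr rfl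
  intro x _
  show cw q x.1 * cw q x.2 * G (sw S x) = cw q (sw S x).1 * cw q (sw S x).2 * G (sw S x)
  rw [sw_weight]

theorem PW_eq_sum (w : (C → Bool) → ℝ) (E : (C → Bool) → Prop) :
    PW w E = ∑ ξ, w ξ * (if E ξ then 1 else 0) := by
  unfold PW
  apply Finset.sum_congr rfl
  intro ξ _
  split_ifs <;> simp

theorem PW_mul (q : C → ℝ) (E F : (C → Bool) → Prop) :
    PW (cw q) E * PW (cw q) F
      = ∑ x : (C → Bool) × (C → Bool), cw q x.1 * cw q x.2 *
          (if E x.1 ∧ F x.2 then 1 else 0) := by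
  rw [PW_eq_sum, PW_eq_sum, Finset.sum_mul_sum, Fintype.sum_prod_type]
  apply Finset.sum_congr rfl
  intro ξ _
  apply Finset.sum_congr rfl
  intro η _
  by_cases hE : E ξ <;> by_cases hF : F η <;> simp [hE, hF]

theorem PW_fst (q : C → ℝ) (E : (C → Bool) → Prop) :
    PW (cw q) E
      = ∑ x : (C → Bool) × (C → Bool), cw q x.1 * cw q x.2 *
          (if E x.1 then 1 else 0) := by
  have h := PW_mul q E (fun _ => True)
  rw [PW_true, cw_sum, mul_one] at h
  rw [h]
  simp

/-- event determined by the coins in D -/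
def Det (D : Set C) (E : (C → Bool) → Prop) : Prop :=
  ∀ ξ η : C → Bool, (∀ c ∈ D, η c = ξ c) → (E η ↔ E ξ)

/-- independence -/
theorem PW_indep (q : C → ℝ) {D D' : Set C} (hD : Disjoint D D') {E F : (C → Bool) → Prop}
    (hE : Det D E) (hF : Det D' F) :
    PW (cw q) (fun ξ => E ξ ∧ F ξ) = PW (cw q) E * PW (cw q) F := by
  have hS : StopSet (fun _ : C → Bool => D) := fun _ _ _ => rfl
  rw [PW_mul, PW_fst, ← sw_sum q hS]
  apply Finset.sum_congr rfl
  intro x _
  congr 1
  have h1 : E (sw (fun _ => D) x).1 ↔ E x.1 := by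
    apply hE
    intro c hc
    simp [sw, hc]
  have h2 : F (sw (fun _ => D) x).1 ↔ F x.2 := by
    apply hF
    intro c hc
    have : c ∉ D := fun h => (Set.disjoint_left.1 hD) h hc
    simp [sw, this]
  simp [h1, h2]

/-- the symmetric local lemma for coins -/
theorem lll_coins {ι : Type*} [Fintype ι] {q : C → ℝ} (h0 : ∀ c, 0 ≤ q c) (h1 : ∀ c, q c ≤ 1)
    (A : ι → (C → Bool) → Prop) (D : ι → Set C) (hDet : ∀ i, Det (D i) (A i))
    (Γ : ι → Finset ι) (hΓ : ∀ i j, j ∉ Γ i → j ≠ i → Disjoint (D i) (D j))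
    (d : ℕ) (p : ℝ) (hp : 0 ≤ p)
    (hpd : 4 * p * (d + 1) ≤ 1) (hd : ∀ i, (Γ i).card ≤ d)
    (hA : ∀ i, PW (cw q) (A i) ≤ p) :
    ∃ ξ, 0 < cw q ξ ∧ ∀ i, ¬ A i ξ := by
  apply lll (cw_nonneg h0 h1) (cw_sum q) A Γ d p hp hpd hd hA
  intro i S hi hS
  have hDet' : Det (⋃ j ∈ S, D j) (NoA A S) := by
    intro ξ η h
    constructor
    · intro hN j hj hAj
      exact hN j hj ((hDet j ξ η (fun c hc => h c (Set.mem_biUnion hj hc))).2 hAj)
    · intro hN j hj hAj
      exact hN j hj ((hDet j ξ η (fun c hc => h c (Set.mem_biUnion hj hc))).1 hAj)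
  apply PW_indep q _ (hDet i) hDet'
  rw [Set.disjoint_iUnion₂_right]
  intro j hj
  apply hΓ i j
  · intro hjG
    exact (Finset.disjoint_left.1 hS) hj hjG
  · rintro rfl
    exact hi hj

end Coins

end

end VU
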